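import Pool.Agent.Helper1_RL.Stmts

/-!
# The background metric: smoothness, bounds, scaling (helper49, modules BGM, BGS)
-/

noncomputable section

open scoped ContDiff Topology RealInnerProductSpace
set_option maxSynthPendingDepth 3
open Set Metric

namespace Pool.Agent.RLim.H49

open Pool.Agent.RLim Pool.Agent.RF

theorem cd4 (i : Fin 4) : ContDiff ℝ ∞ (fun x : E4 => x i) :=
  ((EuclideanSpace.proj i : E4 →L[ℝ] ℝ)).contDiff

theorem contDiff_YY : ContDiff ℝ ∞ YY := by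
  rw [contDiff_euclidean]
  intro i
  fin_cases i
  · exact contDiff_const
  · exact contDiff_const
  · exact (cd4 3).neg
  · exact cd4 2

theorem contDiff_sq_YY : ContDiff ℝ ∞ (fun X : E4 => sq (YY X)) := by
  unfold sq
  exact ((innerSL ℝ).contDiff.comp contDiff_YY).smulRight ((innerSL ℝ).contDiff.comp contDiff_YY)

/-- `ρ` -/
theorem rdl_pos {δ : ℝ} (hδ : 0 < δ) (X : E4) : 0 < Prof.rdl δ X := by
  unfold Prof.rdl
  exact Real.sqrt_pos.2 (by positivity)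

theorem rdl_sq {δ : ℝ} (X : E4) : Prof.rdl δ X ^ 2 = X 2 ^ 2 + X 3 ^ 2 + δ ^ 2 :=
  Real.sq_sqrt (by positivity)

theorem le_rdl {δ : ℝ} (_hδ : 0 < δ) (X : E4) : δ ≤ Prof.rdl δ X := by
  apply Real.le_sqrt_of_sq_le
  nlinarith [sq_nonneg (X 2), sq_nonneg (X 3)]

theorem contDiff_rdl {δ : ℝ} (hδ : 0 < δ) : ContDiff ℝ ∞ (Prof.rdl δ) := by
  unfold Prof.rdl
  refine ContDiff.sqrt ((((cd4 2).pow 2).add ((cd4 3).pow 2)).add contDiff_const) ?_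
  intro X
  positivity

/-- the function `H` of the background metric -/
def hbg (r ρ δ : ℝ) : ℝ := -(δ / ρ + r * (1 - δ / ρ) + 1) * ((1 - r) / ρ) / (ρ + δ)

theorem bg_apply (r δ : ℝ) (X V W : E4) :
    bg r δ X V W = ⟪V, W⟫ + hbg r (Prof.rdl δ X) δ * (⟪YY X, V⟫ * ⟪YY X, W⟫) := by
  unfold bg Prof.neck
  rw [gen_apply]
  simp [Prof.lapse, Prof.HH, Prof.Bh, bgP, hbg]

theorem bg_eq (r δ : ℝ) (X : E4) : bg r δ X = del (Fin 4) + hbg r (Prof.rdl δ X) δ • sq (YY X) := by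
  ext V W
  rw [bg_apply]
  simp

theorem contDiff_bg {r δ : ℝ} (hδ : 0 < δ) : ContDiff ℝ ∞ (bg r δ) := by
  have e : bg r δ = fun X => del (Fin 4) + hbg r (Prof.rdl δ X) δ • sq (YY X) := funext (bg_eq r δ)
  rw [e]
  have h1 := contDiff_rdl hδ
  have h0 : ∀ X, Prof.rdl δ X ≠ 0 := fun X => (rdl_pos hδ X).ne'
  have h0' : ∀ X, Prof.rdl δ X + δ ≠ 0 := fun X => (add_pos (rdl_pos hδ X) hδ).ne'
  refine contDiff_const.add (ContDiff.smul (f := fun X => hbg r (Prof.rdl δ X) δ) ?_ contDiff_sq_YY)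
  unfold hbg
  refine ContDiff.div ?_ (h1.add contDiff_const) h0'
  refine ContDiff.mul ?_ (contDiff_const.div h1 h0)
  refine ContDiff.neg ?_
  refine ContDiff.add ?_ contDiff_const
  exact (contDiff_const.div h1 h0).add (contDiff_const.mul
    (contDiff_const.sub (contDiff_const.div h1 h0)))

theorem norm_YY (X : E4) : ‖YY X‖ ^ 2 = X 2 ^ 2 + X 3 ^ 2 := by
  rw [EuclideanSpace.norm_sq_eq]
  simp [Fin.sum_univ_four, YY]
  ring

theorem bg_bounds {r δ : ℝ} (hr : 0 < r) (hr1 : r < 1) (hδ : 0 < δ) (X V : E4) :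
    (r / 4) ^ 2 * ‖V‖ ^ 2 ≤ bg r δ X V V ∧ bg r δ X V V ≤ ‖V‖ ^ 2 := by
  rw [bg_apply, real_inner_self_eq_norm_sq]
  set ρ := Prof.rdl δ X with hρ
  have hρ0 : 0 < ρ := rdl_pos hδ X
  have hle : δ ≤ ρ := le_rdl hδ X
  have h2 : ρ ^ 2 = X 2 ^ 2 + X 3 ^ 2 + δ ^ 2 := rdl_sq X
  have he0 : 0 < δ / ρ := by positivity
  have he1 : δ / ρ ≤ 1 := (div_le_one hρ0).2 hle
  have hH : hbg r ρ δ ≤ 0 := by
    unfold hbg
    have h3 : 0 ≤ δ / ρ + r * (1 - δ / ρ) + 1 := by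
      have := mul_nonneg hr.le (sub_nonneg.2 he1)
      linarith
    have h4 : 0 ≤ (1 - r) / ρ := div_nonneg (by linarith) hρ0.le
    have h5 : 0 ≤ (δ / ρ + r * (1 - δ / ρ) + 1) * ((1 - r) / ρ) / (ρ + δ) := by positivity
    have h6 : -(δ / ρ + r * (1 - δ / ρ) + 1) * ((1 - r) / ρ) / (ρ + δ) =
      -((δ / ρ + r * (1 - δ / ρ) + 1) * ((1 - r) / ρ) / (ρ + δ)) := by ring
    rw [h6]; linarith
  have hs : 0 ≤ ⟪YY X, V⟫ * ⟪YY X, V⟫ := mul_self_nonneg _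
  have hcs : ⟪YY X, V⟫ * ⟪YY X, V⟫ ≤ (ρ ^ 2 - δ ^ 2) * ‖V‖ ^ 2 := by
    have h3 : ρ ^ 2 - δ ^ 2 = ‖YY X‖ ^ 2 := by rw [norm_YY, h2]; ring
    rw [h3]
    have h4 := abs_real_inner_le_norm (YY X) V
    calc ⟪YY X, V⟫ * ⟪YY X, V⟫ = |⟪YY X, V⟫| ^ 2 := by rw [sq_abs]; ring
      _ ≤ (‖YY X‖ * ‖V‖) ^ 2 := pow_le_pow_left₀ (abs_nonneg _) h4 2
      _ = ‖YY X‖ ^ 2 * ‖V‖ ^ 2 := by ring
  have hid : hbg r ρ δ * (ρ ^ 2 - δ ^ 2) = (δ / ρ + r * (1 - δ / ρ)) ^ 2 - 1 := by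
    unfold hbg
    have : ρ + δ ≠ 0 := by positivity
    field_simp
    ring
  constructor
  · have h3 := mul_le_mul_of_nonpos_left hcs hH
    have h4 : hbg r ρ δ * ((ρ ^ 2 - δ ^ 2) * ‖V‖ ^ 2) =
        ((δ / ρ + r * (1 - δ / ρ)) ^ 2 - 1) * ‖V‖ ^ 2 := by rw [← hid]; ring
    rw [h4] at h3
    have h5 : r ≤ δ / ρ + r * (1 - δ / ρ) := by nlinarith
    have h6 : (r / 4) ^ 2 ≤ (δ / ρ + r * (1 - δ / ρ)) ^ 2 :=
      pow_le_pow_left₀ (by positivity) (by linarith) 2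
    have h7 := mul_le_mul_of_nonneg_right h6 (sq_nonneg ‖V‖)
    nlinarith
  · have := mul_nonpos_of_nonpos_of_nonneg hH hs
    linarith

/-- BGM -/
theorem bgm : BgMetricStmt := by
  intro r δ hr hr1 hδ
  have hb := bg_bounds hr hr1 hδ
  refine ⟨⟨isOpen_univ, (contDiff_bg hδ).contDiffOn, ?_, ?_⟩, hb⟩
  · intro X _ V W
    rw [bg_apply, bg_apply, real_inner_comm V W]
    ring
  · intro X _ V hV
    have h1 : 0 < ‖V‖ := norm_pos_iff.2 hV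
    have h2 : 0 < (r / 4) ^ 2 * ‖V‖ ^ 2 := by positivity
    exact h2.trans_le (hb X V).1

/-- BGS -/
theorem bgs : BgScaleStmt := by
  intro r δ w hw hδ Q X V W hQ2 hQ3
  have h1 : Prof.rdl (δ / w) (w⁻¹ • (X - Q)) = Prof.rdl δ X / w := by
    unfold Prof.rdl
    have h2 : (w⁻¹ • (X - Q)) 2 ^ 2 + (w⁻¹ • (X - Q)) 3 ^ 2 + (δ / w) ^ 2 =
        (X 2 ^ 2 + X 3 ^ 2 + δ ^ 2) / w ^ 2 := by
      simp [hQ2, hQ3]
      field_simp
    rw [h2, Real.sqrt_div (by positivity), Real.sqrt_sq hw.le]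
  have h2 : YY (w⁻¹ • (X - Q)) = w⁻¹ • YY X := by
    ext i
    fin_cases i <;> simp [YY, hQ2, hQ3]
  rw [bg_apply, bg_apply, h1, h2, inner_smul_left, inner_smul_left]
  have hρ := rdl_pos hδ X
  set ρ := Prof.rdl δ X
  have h3 : hbg r (ρ / w) (δ / w) = w ^ 2 * hbg r ρ δ := by
    unfold hbg
    have : ρ + δ ≠ 0 := by positivity
    have h4 : δ / w / (ρ / w) = δ / ρ := by field_simp
    rw [h4]
    field_simp
  rw [h3]
  simp only [conj_trivial]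
  field_simp

end Pool.Agent.RLim.H49
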